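import Pool.Agent.helper47.MSW.SpecA

/-! msw, row HLA: elementary properties of `HP` and `HL`. -/

set_option autoImplicit false

namespace Pool.Agent.MSW

open Equiv Finset Function MeasureTheory Pool.Agent.helper48.PP
open Pool.Agent.DSW (Pr Has GP wt)
open scoped ENNReal Classical

theorem HLA_HPmono {k : ℕ} (τ : Perm (Fin k)) (ω : Om) (a a' z z' : Pt) (ha : a' ≤ a) (hz : z ≤ z')
    (h : HP τ ω a z) : HP τ ω a' z' := by
  obtain ⟨h1, x, y, hx, hy, h2⟩ := h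
  refine ⟨ha.trans (h1.trans hz), x, y, hx, hy, fun j => ?_⟩
  obtain ⟨h3, ⟨h4, h5⟩, h6, h7⟩ := h2 j
  exact ⟨h3, ⟨ha.1.trans h4, lt_of_lt_of_le h5 hz.1⟩, ha.2.trans h6, lt_of_lt_of_le h7 hz.2⟩

theorem HLA_HPdep {k : ℕ} (τ : Perm (Fin k)) (a z : Pt) (F : Finset Pt) (hF : box a z ⊆ F) (ω ω' : Om)
    (h : ∀ c ∈ F, ω c = ω' c) (hh : HP τ ω a z) : HP τ ω' a z := by
  obtain ⟨h1, x, y, hx, hy, h2⟩ := hh
  refine ⟨h1, x, y, hx, hy, fun j => ?_⟩
  obtain ⟨h3, ⟨h4, h5⟩, h6, -⟩ := h2 j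
  have h7 : y (τ j) < z.2 := (h2 (τ j)).2.2.2
  have h8 : a.2 ≤ y (τ j) := (h2 (τ j)).2.2.1
  have hc : (x j, y (τ j)) ∈ box a z := by
    rw [mem_box]
    exact ⟨⟨h4, h8⟩, h5, h7⟩
  refine ⟨?_, ⟨h4, h5⟩, h6, (h2 j).2.2.2⟩
  rw [← h _ (hF hc)]
  exact h3

theorem HLA_le (X : List Pat) (ω : Om) : ∀ a z : Pt, HL X ω a z → a ≤ z := by
  induction X with
  | nil =>
    intro a z h
    exact h
  | cons b l ih =>
    intro a z h
    obtain ⟨m, h1, h2⟩ := h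
    exact h1.1.trans (ih m z h2)

theorem HLA_mono (X : List Pat) (ω : Om) : ∀ a a' z z' : Pt, a' ≤ a → z ≤ z' → HL X ω a z → HL X ω a' z' := by
  induction X with
  | nil =>
    intro a a' z z' ha hz h
    exact ha.trans (le_trans (h : a ≤ z) hz)
  | cons b l ih =>
    intro a a' z z' ha hz h
    obtain ⟨m, h1, h2⟩ := h
    exact ⟨m, HLA_HPmono b.2 ω a a' m m ha (le_refl m) h1, ih m m z z' (le_refl m) hz h2⟩

theorem HLA_app (X Y : List Pat) (ω : Om) : ∀ a z : Pt,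
    HL (X ++ Y) ω a z ↔ ∃ m, HL X ω a m ∧ HL Y ω m z := by
  induction X with
  | nil =>
    intro a z
    constructor
    · intro h
      exact ⟨a, le_refl a, h⟩
    · rintro ⟨m, h1, h2⟩
      exact HLA_mono Y ω m a z z h1 (le_refl z) h2
  | cons b l ih =>
    intro a z
    constructor
    · rintro ⟨m, h1, h2⟩
      obtain ⟨m', h3, h4⟩ := (ih m z).mp h2
      exact ⟨m', ⟨m, h1, h3⟩, h4⟩
    · rintro ⟨m', ⟨m, h1, h3⟩, h4⟩
      exact ⟨m, h1, (ih m z).mpr ⟨m', h3, h4⟩⟩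

theorem HLA_box_sub {a a' z z' : Pt} (ha : a' ≤ a) (hz : z ≤ z') : box a z ⊆ box a' z' := by
  intro c hc
  rw [mem_box] at hc ⊢
  exact ⟨⟨ha.1.trans hc.1.1, ha.2.trans hc.1.2⟩, lt_of_lt_of_le hc.2.1 hz.1, lt_of_lt_of_le hc.2.2 hz.2⟩

theorem HLA_dep (X : List Pat) (F : Finset Pt) (ω ω' : Om) (h : ∀ c ∈ F, ω c = ω' c) :
    ∀ a z : Pt, box a z ⊆ F → HL X ω a z → HL X ω' a z := by
  induction X with
  | nil =>
    intro a z _ hh
    exact hh
  | cons b l ih =>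
    intro a z hF hh
    obtain ⟨m, h1, h2⟩ := hh
    have hm := HLA_le l ω m z h2
    exact ⟨m, HLA_HPdep b.2 a m F ((HLA_box_sub (le_refl a) hm).trans hF) ω ω' h h1,
      ih m z ((HLA_box_sub h1.1 (le_refl z)).trans hF) h2⟩

theorem HLA : HLA_stmt := by
  refine ⟨fun X ω a z h => HLA_le X ω a z h, fun X Y ω a z => HLA_app X Y ω a z,
    fun X ω a a' z z' ha hz h => HLA_mono X ω a a' z z' ha hz h, ?_,
    fun k τ ω a a' z z' ha hz h => HLA_HPmono τ ω a a' z z' ha hz h, ?_, ?_⟩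
  · intro X a z ω ω' H
    exact ⟨HLA_dep X (box a z) ω ω' H a z (subset_refl _),
      HLA_dep X (box a z) ω' ω (fun c hc => (H c hc).symm) a z (subset_refl _)⟩
  · intro k τ a z ω ω' H
    exact ⟨HLA_HPdep τ a z (box a z) (subset_refl _) ω ω' H,
      HLA_HPdep τ a z (box a z) (subset_refl _) ω' ω (fun c hc => (H c hc).symm)⟩
  · intro b ω a z
    constructor
    · rintro ⟨m, h1, h2⟩
      exact HLA_HPmono b.2 ω a a m z (le_refl a) h2 h1
    · intro h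
      exact ⟨z, h, le_refl z⟩

end Pool.Agent.MSW
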