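import Pool.Agent.helper47.MSW.SpecA

/-! msw, row RFA: reflection of a box. -/

set_option autoImplicit false

namespace Pool.Agent.MSW

open Equiv Finset Function MeasureTheory Pool.Agent.helper48.PP
open Pool.Agent.DSW (Pr Has GP wt)
open scoped ENNReal Classical

theorem RFA_atom (b : Pat) (hb : RC b) (w : Pt) (ω ω' : Om)
    (hω : ∀ c : Pt, c.1 < w.1 → c.2 < w.2 → ω' (rf w c) = ω c) (a z : Pt) (hzw : z ≤ w)
    (h : HP b.2 ω a z) : HP b.2 ω' (w - z) (w - a) := by
  obtain ⟨h1, x, y, hx, hy, h2⟩ := h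
  have hx1 : ∀ j, a.1 ≤ x j ∧ x j < z.1 ∧ x j < w.1 := fun j =>
    ⟨(h2 j).2.1.1, (h2 j).2.1.2, lt_of_lt_of_le (h2 j).2.1.2 hzw.1⟩
  have hy1 : ∀ j, a.2 ≤ y j ∧ y j < z.2 ∧ y j < w.2 := fun j =>
    ⟨(h2 j).2.2.1, (h2 j).2.2.2, lt_of_lt_of_le (h2 j).2.2.2 hzw.2⟩
  refine ⟨tsub_le_tsub_left h1 w, fun j => w.1 - 1 - x (Fin.rev j), fun j => w.2 - 1 - y (Fin.rev j), ?_, ?_, ?_⟩
  · intro i j hij
    have h3 : x (Fin.rev j) < x (Fin.rev i) := hx (Fin.rev_lt_rev.mpr hij)
    have h4 := hx1 (Fin.rev i)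
    show w.1 - 1 - x (Fin.rev i) < w.1 - 1 - x (Fin.rev j)
    omega
  · intro i j hij
    have h3 : y (Fin.rev j) < y (Fin.rev i) := hy (Fin.rev_lt_rev.mpr hij)
    have h4 := hy1 (Fin.rev i)
    show w.2 - 1 - y (Fin.rev i) < w.2 - 1 - y (Fin.rev j)
    omega
  · intro j
    refine ⟨?_, ?_, ?_⟩
    · show ω' (w.1 - 1 - x (Fin.rev j), w.2 - 1 - y (Fin.rev (b.2 j))) = true
      have h3 := hω (x (Fin.rev j), y (b.2 (Fin.rev j))) (hx1 _).2.2 (hy1 _).2.2
      unfold rf at h3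
      rw [← hb j, h3]
      exact (h2 (Fin.rev j)).1
    · have h4 := hx1 (Fin.rev j)
      have h5 := h1.1
      have h6 := hzw.1
      show w.1 - z.1 ≤ w.1 - 1 - x (Fin.rev j) ∧ w.1 - 1 - x (Fin.rev j) < w.1 - a.1
      omega
    · have h4 := hy1 (Fin.rev j)
      have h5 := h1.2
      have h6 := hzw.2
      show w.2 - z.2 ≤ w.2 - 1 - y (Fin.rev j) ∧ w.2 - 1 - y (Fin.rev j) < w.2 - a.2
      omega

theorem RFA_list (hHLA : HLA_stmt) (w : Pt) (ω ω' : Om)
    (hω : ∀ c : Pt, c.1 < w.1 → c.2 < w.2 → ω' (rf w c) = ω c) (Y : List Pat) :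
    (∀ b ∈ Y, RC b) → ∀ a z : Pt, z ≤ w → HL Y ω a z → HL Y.reverse ω' (w - z) (w - a) := by
  obtain ⟨hA1, hA2, -, -, -, -, hA7⟩ := hHLA
  induction Y with
  | nil =>
    intro _ a z _ h
    exact tsub_le_tsub_left (h : a ≤ z) w
  | cons b l ih =>
    intro hY a z hz h
    obtain ⟨m, h1, h2⟩ := h
    have hm : m ≤ z := hA1 l ω m z h2
    rw [List.reverse_cons, hA2]
    refine ⟨w - m, ih (fun c hc => hY c (List.mem_cons_of_mem b hc)) m z hz h2, ?_⟩
    rw [hA7]
    exact RFA_atom b (hY b List.mem_cons_self) w ω ω' hω a m (hm.trans hz) h1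

theorem RFA (hHLA : HLA_stmt) : RFA_stmt := by
  intro Y hY ω w a z haz hzw
  constructor
  · intro h
    exact RFA_list hHLA w (fun c => ω (rf w c)) ω (fun c _ _ => rfl) Y hY a z hzw h
  · intro h
    have hr : ∀ c : Pt, c.1 < w.1 → c.2 < w.2 → (fun c => ω (rf w c)) (rf w c) = ω c := by
      intro c h1 h2
      have : rf w (rf w c) = c := by
        unfold rf
        ext
        · show w.1 - 1 - (w.1 - 1 - c.1) = c.1
          omega
        · show w.2 - 1 - (w.2 - 1 - c.2) = c.2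
          omega
      show ω (rf w (rf w c)) = ω c
      rw [this]
    have h3 := RFA_list hHLA w ω (fun c => ω (rf w c)) hr Y.reverse
      (fun b hb => hY b (List.mem_reverse.mp hb)) (w - z) (w - a) tsub_le_self h
    have e1 : w - (w - a) = a := by
      ext
      · have := haz.1.trans hzw.1
        show w.1 - (w.1 - a.1) = a.1
        omega
      · have := haz.2.trans hzw.2
        show w.2 - (w.2 - a.2) = a.2
        omega
    have e2 : w - (w - z) = z := by
      ext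
      · have := hzw.1
        show w.1 - (w.1 - z.1) = z.1
        omega
      · have := hzw.2
        show w.2 - (w.2 - z.2) = z.2
        omega
    rw [List.reverse_reverse, e1, e2] at h3
    exact h3

end Pool.Agent.MSW
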